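import Pool.Agent.U705.RC.Fill
import Pool.Agent.U705.RC.Bef

open Pool.Agent.R795.Min Pool.Agent.U705.RC

namespace Pool.Agent.U103.RC

section lists

variable {P : Type}

/-- the first `Q` and the last `Q` elements -/
def ends (Q : ℕ) (s : List P) : List P := s.take Q ++ s.drop (s.length - Q)

theorem ends_length (Q : ℕ) (s : List P) : (ends Q s).length ≤ 2 * Q := by
  unfold ends
  rw [List.length_append, List.length_take, List.length_drop]
  omega

theorem ends_reverse (Q : ℕ) (s : List P) (x : P) (hx : x ∈ ends Q s.reverse) : x ∈ ends Q s := by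
  unfold ends at *
  rw [List.mem_append] at *
  rcases hx with hx | hx
  · right
    rw [List.take_reverse, List.mem_reverse] at hx
    exact hx
  · left
    rw [List.length_reverse, List.drop_reverse, List.mem_reverse] at hx
    have h1 : s.length - (s.length - Q) ≤ Q := by omega
    exact (List.take_sublist_take_left h1).subset hx

theorem split (Q : ℕ) (s : List P) (h : 2 * Q ≤ s.length) :
    ∃ l m r : List P, s = l ++ m ++ r ∧ l.length = Q ∧ r.length = Q ∧
      (∀ x ∈ l, x ∈ ends Q s) ∧ (∀ x ∈ r, x ∈ ends Q s) := by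
  refine ⟨s.take Q, (s.drop Q).take (s.length - 2 * Q), s.drop (s.length - Q), ?_, ?_, ?_, ?_, ?_⟩
  · have h1 : s.drop (s.length - Q) = (s.drop Q).drop (s.length - 2 * Q) := by
      rw [List.drop_drop]
      congr 1
      omega
    rw [h1, List.append_assoc, List.take_append_drop, List.take_append_drop]
  · rw [List.length_take]
    omega
  · rw [List.length_drop]
    omega
  · intro x hx
    exact List.mem_append_left _ hx
  · intro x hx
    exact List.mem_append_right _ hx

theorem two_mem {x y : P} {m : List P} (hx : x ∈ m) (hy : y ∈ m) (hxy : x ≠ y) :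
    [x, y].Sublist m ∨ [y, x].Sublist m := by
  obtain ⟨s, t, rfl⟩ := List.append_of_mem hx
  rcases List.mem_append.mp hy with hy | hy
  · right
    have h1 : [y].Sublist s := List.singleton_sublist.mpr hy
    have h2 : [x].Sublist (x :: t) := by simp
    exact h1.append h2
  · left
    rcases List.mem_cons.mp hy with hy | hy
    · exact absurd hy.symm hxy
    · have h1 : [y].Sublist t := List.singleton_sublist.mpr hy
      exact (h1.cons₂ x).trans (List.sublist_append_right _ _)

theorem filter_mid {l m r : List P} (p : P → Bool) (hl : ∀ x ∈ l, p x = true)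
    (hr : ∀ x ∈ r, p x = true) : (l ++ m ++ r).filter p = l ++ m.filter p ++ r := by
  rw [List.filter_append, List.filter_append, List.filter_eq_self.mpr hl,
    List.filter_eq_self.mpr hr]

/-- comparison of the parts -/
theorem close_parts {Q : ℕ} {l m r l' m' r' : List P} (h : Close Q (l ++ m ++ r) (l' ++ m' ++ r'))
    (h1 : l.length = Q) (h2 : r.length = Q) (h3 : l'.length = Q) (h4 : r'.length = Q) :
    l.Perm l' ∧ r.Perm r' ∧ m = m' := by
  obtain ⟨a, b, c, a', c', e1, e2, e3, e4, e5, e6⟩ := h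
  obtain ⟨e7, e8⟩ := List.append_inj' e1 (by rw [h2, e6])
  obtain ⟨e9, e10⟩ := List.append_inj e7 (by rw [h1, e5])
  obtain ⟨e11, e12⟩ := List.append_inj' e2 (by rw [h4, ← e4.length_eq, e6])
  obtain ⟨e13, e14⟩ := List.append_inj e11 (by rw [h3, ← e3.length_eq, e5])
  subst e8 e9 e10 e12 e13 e14
  exact ⟨e3, e4, rfl⟩

/-- the reversed case is impossible -/
theorem not_close_reverse {Q : ℕ} {l m r l' m' r' : List P} {x y : P}
    (hn : (l ++ m ++ r).Nodup) (hn' : (l' ++ m' ++ r').Nodup)
    (h : Close Q (l ++ m ++ r) (l' ++ m' ++ r').reverse)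
    (h1 : l.length = Q) (h2 : r.length = Q) (hxy : x ≠ y)
    (hs : [x, y].Sublist (l ++ m ++ r)) (hs' : [x, y].Sublist (l' ++ m' ++ r'))
    (hxl : x ∉ l) (hxr : x ∉ r) (hyl : y ∉ l) (hyr : y ∉ r) : False := by
  obtain ⟨a, b, c, a', c', e1, e2, e3, e4, e5, e6⟩ := h
  obtain ⟨e7, e8⟩ := List.append_inj' e1 (by rw [h2, e6])
  obtain ⟨e9, e10⟩ := List.append_inj e7 (by rw [h1, e5])
  subst e8 e9 e10
  have hxm : x ∈ m := by
    have := hs.subset (show x ∈ [x, y] by simp)
    simp only [List.mem_append] at this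
    tauto
  have hym : y ∈ m := by
    have := hs.subset (show y ∈ [x, y] by simp)
    simp only [List.mem_append] at this
    tauto
  have hms : m.Sublist (l ++ m ++ r) :=
    (List.sublist_append_right l m).trans (List.sublist_append_left _ _)
  have hms' : m.Sublist (l' ++ m' ++ r').reverse := by
    rw [e2]
    exact (List.sublist_append_right a' m).trans (List.sublist_append_left _ _)
  have hm : [x, y].Sublist m := by
    rcases two_mem hxm hym hxy with h | h
    · exact h
    · exact (bef_asymm hn hs (h.trans hms)).elim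
  have h3 : [y, x].Sublist (l' ++ m' ++ r').reverse := by
    have := hs'.reverse
    simpa using this
  exact bef_asymm (List.nodup_reverse.mpr hn') (hm.trans hms') h3

end lists

theorem Ch_reverse {A B : Type} [DecidableEq A] {N : ℕ} {F : Multiset A → List A → B}
    {g : (Fin N → A) → B} {l : List (Fin N)} (hR : InvRev N F) (h : Ch F g l) :
    Ch F g l.reverse := by
  intro a u hu hv
  have hu' : u.reverse.Sublist l := by
    have := hu.reverse
    rwa [List.reverse_reverse] at this
  have h1 := h a u.reverse hu' (by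
    rw [List.map_reverse]
    exact hv.perm (List.reverse_perm _).symm)
  rw [h1, List.map_reverse]
  exact (hR (u.map a) (content a) (by unfold content; simp) hv).symm

/-- the pair number `v` -/
def pr (N v : ℕ) : Finset (Fin N) := Finset.univ.filter fun x => x.val / 2 = v

theorem mem_pr {N v : ℕ} (x : Fin N) : x ∈ pr N v ↔ x.val / 2 = v := by
  unfold pr
  rw [Finset.mem_filter]
  exact ⟨fun h => h.2, fun h => ⟨Finset.mem_univ _, h⟩⟩

theorem pr_card {N v : ℕ} (h : 2 * v + 1 < N) : (pr N v).card = 2 := by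
  have : pr N v = {⟨2 * v, by omega⟩, ⟨2 * v + 1, h⟩} := by
    ext x
    rw [mem_pr, Finset.mem_insert, Finset.mem_singleton, Fin.ext_iff, Fin.ext_iff]
    simp only
    omega
  rw [this]
  apply Finset.card_pair
  intro h
  rw [Fin.ext_iff] at h
  simp at h

theorem pr_disjoint {N v w : ℕ} (h : v ≠ w) : Disjoint (pr N v) (pr N w) := by
  rw [Finset.disjoint_left]
  intro x hx hy
  rw [mem_pr] at hx hy
  exact h (hx.symm.trans hy)

theorem t_ADATA : S_ALPHA → S_DIG → S_C2E → S_GLUE → S_ADATA := by
  intro hA hD hC hG k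
  obtain ⟨Q, nα, hα⟩ := hA k
  refine ⟨2 * ((k + 5) * (2 * (2 * Q) + 1)) + nα + 2 * Q + k + 10, ?_⟩
  intro A B _ _ hk N F g hN hrot hall
  set M0 := (k + 5) * (2 * (2 * Q) + 1) with hM0
  have hσ0 : ∀ v : ℕ, ∃ σ : List (Fin N), 2 * v + 1 < N →
      σ.Nodup ∧ (∀ x, x ∈ σ ↔ x ∉ pr N v) ∧ Ch F g σ := by
    intro v
    by_cases hv : 2 * v + 1 < N
    · obtain ⟨σ, h⟩ := hall (pr N v) (pr_card hv)
      exact ⟨σ, fun _ => h⟩
    · exact ⟨[], fun h => absurd h hv⟩
  choose σ hσ using hσ0
  obtain ⟨T, hTS, hTc, hT⟩ := hD ℕ (Finset.range M0)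
    (fun v => ((ends Q (σ v)).map (fun x : Fin N => x.val / 2)).toFinset) (2 * Q) (k + 5) (by
      intro v _
      refine (List.toFinset_card_le _).trans ?_
      rw [List.length_map]
      exact ends_length Q _) (by rw [Finset.card_range])
  have hTlt : ∀ v ∈ T, 2 * v + 1 < N := by
    intro v hv
    have := Finset.mem_range.mp (hTS hv)
    omega
  have hend : ∀ v ∈ T, ∀ w ∈ T, v ≠ w → ∀ x ∈ ends Q (σ v), x ∉ pr N w := by
    intro v hv w hw hvw x hx hxw
    apply hT v hv w hw hvw
    rw [List.mem_toFinset, List.mem_map]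
    exact ⟨x, hx, (mem_pr x).mp hxw⟩
  -- enumeration
  let e : Fin (k + 5) ↪o ℕ := T.orderEmbOfFin hTc
  have heT : ∀ i, e i ∈ T := fun i => Finset.orderEmbOfFin_mem T hTc i
  set w0 := e (Fin.last (k + 4)) with hw0
  let v : Fin (k + 4) → ℕ := fun i => e i.castSucc
  have hvT : ∀ i, v i ∈ T := fun i => heT _
  have hv0 : ∀ i, v i ≠ w0 := by
    intro i h
    have := e.injective h
    exact (Fin.castSucc_lt_last i).ne this
  have hvne : ∀ i j, i ≠ j → v i ≠ v j := by
    intro i j hij h
    exact hij (Fin.castSucc_injective _ (e.injective h))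
  have hw0lt := hTlt w0 (heT _)
  obtain ⟨x, hx⟩ : ∃ x : Fin N, x = ⟨2 * w0, by omega⟩ := ⟨_, rfl⟩
  obtain ⟨y, hy⟩ : ∃ y : Fin N, y = ⟨2 * w0 + 1, hw0lt⟩ := ⟨_, rfl⟩
  have hxy : x ≠ y := by
    rw [hx, hy]
    intro h
    rw [Fin.ext_iff] at h
    simp at h
  have hxP : x ∈ pr N w0 := by
    rw [mem_pr, hx]
    simp
  have hyP : y ∈ pr N w0 := by
    rw [mem_pr, hy]
    simp only
    omega
  have hnot : ∀ z ∈ pr N w0, ∀ i, z ∉ pr N (v i) := by
    intro z hz i hzi
    rw [mem_pr] at hz hzi
    exact hv0 i (hzi.symm.trans hz)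
  have hxv : ∀ i, x ∉ pr N (v i) := hnot x hxP
  have hyv : ∀ i, y ∉ pr N (v i) := hnot y hyP
  -- orientation
  have hρ0 : ∀ i : Fin (k + 4), ∃ ρ : List (Fin N), ρ.Nodup ∧ (∀ z, z ∈ ρ ↔ z ∉ pr N (v i)) ∧
      Ch F g ρ ∧ (∀ z ∈ ends Q ρ, z ∈ ends Q (σ (v i))) ∧
      (InvRev N F → [x, y].Sublist ρ) := by
    intro i
    obtain ⟨h1, h2, h3⟩ := hσ (v i) (hTlt _ (hvT i))
    by_cases hR : InvRev N F
    · have hxm : x ∈ σ (v i) := (h2 x).mpr (hxv i)
      have hym : y ∈ σ (v i) := (h2 y).mpr (hyv i)
      rcases two_mem hxm hym hxy with h | h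
      · exact ⟨σ (v i), h1, h2, h3, fun z hz => hz, fun _ => h⟩
      · refine ⟨(σ (v i)).reverse, List.nodup_reverse.mpr h1, ?_, Ch_reverse hR h3,
          fun z hz => ends_reverse Q _ z hz, fun _ => ?_⟩
        · intro z
          rw [List.mem_reverse]
          exact h2 z
        · have := h.reverse
          simpa using this
    · exact ⟨σ (v i), h1, h2, h3, fun z hz => hz, fun h => absurd h hR⟩
  choose ρ hρn hρm hρc hρe hρs using hρ0
  -- lengths
  have hlen : ∀ i, N ≤ (ρ i).length + 2 := by
    intro i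
    have h1 : (ρ i).toFinset = (pr N (v i))ᶜ := by
      ext z
      rw [List.mem_toFinset, Finset.mem_compl]
      exact hρm i z
    have h2 : (ρ i).toFinset.card = (ρ i).length := List.toFinset_card_of_nodup (hρn i)
    rw [h1, Finset.card_compl, Fintype.card_fin, pr_card (hTlt _ (hvT i))] at h2
    omega
  have hspl : ∀ i, ∃ l m r : List (Fin N), ρ i = l ++ m ++ r ∧ l.length = Q ∧ r.length = Q ∧
      (∀ z ∈ l, z ∈ ends Q (ρ i)) ∧ (∀ z ∈ r, z ∈ ends Q (ρ i)) := by
    intro i
    apply split
    have := hlen i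
    omega
  choose l m r hlmr hl hr hle hre using hspl
  have hlP : ∀ i, ∀ w ∈ T, w ≠ v i → ∀ z ∈ l i, z ∉ pr N w := by
    intro i w hw hwi z hz
    exact hend (v i) (hvT i) w hw hwi.symm z (hρe i z (hle i z hz))
  have hrP : ∀ i, ∀ w ∈ T, w ≠ v i → ∀ z ∈ r i, z ∉ pr N w := by
    intro i w hw hwi z hz
    exact hend (v i) (hvT i) w hw hwi.symm z (hρe i z (hre i z hz))
  have hfil : ∀ i j, i ≠ j → (ρ i).filter (fun z => z ∉ pr N (v j)) =
      l i ++ (m i).filter (fun z => z ∉ pr N (v j)) ++ r i := by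
    intro i j hij
    rw [hlmr i]
    apply filter_mid
    · intro z hz
      simpa using hlP i (v j) (hvT j) (hvne j i hij.symm) z hz
    · intro z hz
      simpa using hrP i (v j) (hvT j) (hvne j i hij.symm) z hz
  have hmain : ∀ i j, i ≠ j → (l i).Perm (l j) ∧ (r i).Perm (r j) ∧
      (m i).filter (fun z => z ∉ pr N (v j)) = (m j).filter (fun z => z ∉ pr N (v i)) := by
    intro i j hij
    have hn1 : ((ρ i).filter (fun z => z ∉ pr N (v j))).Nodup := (hρn i).filter _
    have hn2 : ((ρ j).filter (fun z => z ∉ pr N (v i))).Nodup := (hρn j).filter _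
    have hmem1 : ∀ z, z ∈ (ρ i).filter (fun z => z ∉ pr N (v j)) ↔
        z ∉ pr N (v i) ∧ z ∉ pr N (v j) := by
      intro z
      rw [List.mem_filter, hρm i z]
      simp
    have hmem2 : ∀ z, z ∈ (ρ j).filter (fun z => z ∉ pr N (v i)) ↔
        z ∉ pr N (v i) ∧ z ∉ pr N (v j) := by
      intro z
      rw [List.mem_filter, hρm j z]
      simp only [decide_eq_true_eq]
      exact and_comm
    have hperm : ((ρ i).filter (fun z => z ∉ pr N (v j))).Perm
        ((ρ j).filter (fun z => z ∉ pr N (v i))) := by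
      rw [List.perm_ext_iff_of_nodup hn1 hn2]
      intro z
      rw [hmem1, hmem2]
    have hlen2 : nα ≤ ((ρ i).filter (fun z => z ∉ pr N (v j))).length := by
      have h1 : ((ρ i).filter (fun z => z ∉ pr N (v j))).toFinset =
          (pr N (v i) ∪ pr N (v j))ᶜ := by
        ext z
        rw [List.mem_toFinset, Finset.mem_compl, Finset.mem_union, hmem1, not_or]
      have h2 := List.toFinset_card_of_nodup hn1
      rw [h1, Finset.card_compl, Fintype.card_fin] at h2
      have h3 := Finset.card_union_le (pr N (v i)) (pr N (v j))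
      rw [pr_card (hTlt _ (hvT i)), pr_card (hTlt _ (hvT j))] at h3
      omega
    have heqv : Eqv N F ((ρ i).filter (fun z => z ∉ pr N (v j)))
        ((ρ j).filter (fun z => z ∉ pr N (v i))) :=
      hC A B N F g _ _ hn1 ((hρc i).mono List.filter_sublist) ((hρc j).mono List.filter_sublist)
    have hclose : Close Q ((ρ i).filter (fun z => z ∉ pr N (v j)))
        ((ρ j).filter (fun z => z ∉ pr N (v i))) := by
      rcases hα A B hk N F hrot (Fin N) _ _ hn1 hn2 hperm hlen2 heqv with h | ⟨hR, h⟩
      · exact h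
      · exfalso
        have hs1 : [x, y].Sublist ((ρ i).filter (fun z => z ∉ pr N (v j))) := by
          have := (hρs i hR).filter (fun z => decide (z ∉ pr N (v j)))
          simpa [hxv j, hyv j] using this
        have hs2 : [x, y].Sublist ((ρ j).filter (fun z => z ∉ pr N (v i))) := by
          have := (hρs j hR).filter (fun z => decide (z ∉ pr N (v i)))
          simpa [hxv i, hyv i] using this
        rw [hfil i j hij] at h hn1 hs1
        rw [hfil j i hij.symm] at h hn2 hs2
        have hw0T := heT (Fin.last (k + 4))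
        exact not_close_reverse hn1 hn2 h (hl i) (hr i) hxy hs1 hs2
          (fun hz => hlP i w0 hw0T (hv0 i).symm x hz hxP)
          (fun hz => hrP i w0 hw0T (hv0 i).symm x hz hxP)
          (fun hz => hlP i w0 hw0T (hv0 i).symm y hz hyP)
          (fun hz => hrP i w0 hw0T (hv0 i).symm y hz hyP)
    rw [hfil i j hij, hfil j i hij.symm] at hclose
    exact close_parts hclose (hl i) (hr i) (hl j) (hr j)
  subst hk
  refine hG A B N F g (fun i => pr N (v i)) l m r ?_ ?_ ?_ ?_ ?_ ?_ ?_ ?_ ?_
  · intro i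
    exact pr_card (hTlt _ (hvT i))
  · intro i j hij
    exact pr_disjoint (hvne i j hij)
  · intro i
    rw [← hlmr i]
    exact hρn i
  · intro i z
    rw [← hlmr i]
    exact hρm i z
  · intro i
    rw [← hlmr i]
    exact hρc i
  · intro i j
    by_cases hij : i = j
    · rw [hij]
    · exact (hmain i j hij).1
  · intro i j
    by_cases hij : i = j
    · rw [hij]
    · exact (hmain i j hij).2.1
  · intro i j hij
    exact (hmain i j hij).2.2
  · intro i
    have h1 := hlen i
    have h2 := congrArg List.length (hlmr i)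
    rw [List.length_append, List.length_append, hl i, hr i] at h2
    omega

end Pool.Agent.U103.RC
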